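import Pool.Agent.P.MP_cd1425_an.En.Op

/-! Transfer to spaces with a complemented copy of the sequence space. -/

set_option autoImplicit false

open Filter Topology Function

namespace Pool.Agent.P.MP_cd1425_an.En

open Cl

variable {𝕜 : Type} [RCLike 𝕜] {N : ℕ} {X : Type*} [AddCommGroup X] [Module 𝕜 X]
  [TopologicalSpace X] [IsTopologicalAddGroup X]

theorem sharp (Q : X →ₗ[𝕜] RD 𝕜 N) (J : RD 𝕜 N →ₗ[𝕜] X) (hQJ : ∀ y, Q (J y) = y)
    (hQ : ∀ (m : ℕ) (ε : ℝ), 0 < ε → ∀ᶠ x in 𝓝 0, Sm m ε (Q x).1)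
    (hJ : ∀ U ∈ 𝓝 (0 : X), ∃ (m : ℕ) (ε : ℝ), 0 < ε ∧ ∀ y : RD 𝕜 N, Sm m ε y.1 → J y ∈ U) :
    ∃ T : X →L[𝕜] X, (∀ n ≤ N, FrequentlyRecurrent (directSum n T)) ∧
      ∀ n, N < n → ¬ UFrequentlyRecurrent (directSum n T) := by
  have c1 : Continuous (J ∘ₗ Q) := continuous_of_continuousAt_zero _ fun U hU => by
    obtain ⟨m, ε, hε, h⟩ := hJ U (by simpa using hU)
    exact (hQ m ε hε).mono fun x hx => h _ hx
  have c2 : Continuous (J ∘ₗ sr ∘ₗ Q) := continuous_of_continuousAt_zero _ fun U hU => by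
    obtain ⟨m, ε, hε, h⟩ := hJ U (by simpa using hU)
    refine (hQ (m + 3) (ε / (1 + (N + 1) * 2 ^ ((2 * m + 1) ^ 2 * m))) (by positivity)).mono
      fun x hx => h _ ((sh_sm m hx).mono le_rfl (le_of_eq ?_))
    field_simp
  let T : X →L[𝕜] X := ⟨J ∘ₗ sr ∘ₗ Q + (LinearMap.id - J ∘ₗ Q), c2.add (continuous_id.sub c1)⟩
  have hT : ∀ x, T x = J (sr (Q x)) + (x - J (Q x)) := fun _ => rfl
  have s1 : Semiconj Q T sr := fun x => by simp [hT, hQJ]
  have s2 : ∀ q x, T^[q] x = x + J (sr^[q] (Q x) - Q x) := fun q x => by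
    induction q with
    | zero => simp
    | succ q ih =>
      rw [iterate_succ_apply', iterate_succ_apply', hT, s1.iterate_right q x, ih, map_sub, map_sub]
      abel
  have s3 : ∀ n q (ξ : Fin n → X) s, (directSum n T)^[q] ξ s = T^[q] (ξ s) := fun n q ξ s =>
    Semiconj.iterate_right (f := fun η : Fin n → X => η s) (ga := directSum n T) (gb := T)
      (fun _ => rfl) q ξ
  have hJ' : ∀ n (ξ : Fin n → X), ∀ U ∈ 𝓝 ξ, ∃ (m : ℕ) (ε : ℝ), 0 < ε ∧ ∀ y : Fin n → RD 𝕜 N,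
      (∀ s, Sm m ε (y s).1) → (fun s => ξ s + J (y s)) ∈ U := fun n ξ U hU => by
    rw [nhds_pi, Filter.mem_pi'] at hU
    obtain ⟨I, V, hV, hU⟩ := hU
    obtain ⟨m, ε, hε, h⟩ := hJ (⋂ s, {z | ξ s + z ∈ V s}) (iInter_mem.2 fun s =>
      (continuous_const.add continuous_id).continuousAt.preimage_mem_nhds (by simpa using hV s))
    exact ⟨m, ε, hε, fun y hy => hU fun s _ => Set.mem_iInter.1 (h _ (hy s)) s⟩
  refine ⟨T, fun n hn ξ => mem_closure_iff_nhds.2 fun U hU => ?_, fun n hn h => ?_⟩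
  · obtain ⟨m, ε, hε, h⟩ := hJ' n ξ U hU
    obtain ⟨r, i, K, h1, h2⟩ := approx hn (fun s => Q (ξ s)) m hε
    refine ⟨_, h _ h1, fun V hV => ?_⟩
    obtain ⟨m', δ, hδ, h3⟩ := hJ' n _ V hV
    obtain ⟨l, h4, h5⟩ := h2 m' δ hδ
    refine lowerDensity_retA (i := i) h4 fun q hq => ?_
    refine Set.mem_of_eq_of_mem (s := V) (funext fun s => ?_) (h3 _ (h5 q hq))
    rw [s3, s2, map_add, hQJ, add_sub_cancel]
  classical
  have hQ' : ∀ (x : X) (ε : ℝ), 0 < ε → ∀ᶠ z in 𝓝 x, Sm 0 ε (Q z - Q x).1 := fun x ε hε => by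
    have : Tendsto (fun z => z - x) (𝓝 x) (𝓝 0) := by
      simpa using (continuous_sub_right x).tendsto x
    simpa only [map_sub] using this.eventually (hQ 0 ε hε)
  have hpi : ∀ (ξ : Fin n → X) (ε : ℝ), 0 < ε → {η | ∀ s, Sm 0 ε (Q (η s) - Q (ξ s)).1} ∈ 𝓝 ξ :=
    fun ξ ε hε => eventually_all.2 fun s =>
      ((continuous_apply s).tendsto ξ).eventually (hQ' (ξ s) ε hε)
  let v : Fin n → Fin (N + 1) → 𝕜 := fun s j => if (j : ℕ) = s then 1 else 0
  let e : Fin n → RD 𝕜 N := fun s => ⟨Sum.elim (v s) 0, fun m => ⟨1, by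
    rintro (j | p)
    · simp only [Sum.elim_inl, be, v, zero_mul, pow_zero, mul_one]
      split_ifs <;> simp
    · simp⟩⟩
  obtain ⟨ξ, h1, hξ⟩ := mem_closure_iff_nhds.1 (h fun s => J (e s)) _
    (hpi _ (1 / (4 * (N + 1))) (by positivity))
  refine absurd (hξ _ (hpi ξ (1 / 4) (by positivity)))
    (not_lt.2 (upperDensity_nonpos_of_blocks fun ε hε => ?_))
  obtain ⟨l, -, hl⟩ := exists_div_le 9 hε 0
  filter_upwards [eventually_all.2 fun s => dev_le (Q (ξ s)) l (show (0 : ℝ) < 1 / 8 by norm_num)]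
    with k hk
  refine le_trans (avg_mono (g := fun t => (1 + l : ℝ)⁻¹ * (1 + lam k t)) fun q q1 _ =>
    Set.indicator_apply_le' (fun hq => ?_) fun _ => by positivity) ?_
  · rw [Pi.one_apply, ← div_eq_inv_mul, one_le_div (by positivity), add_le_add_iff_left,
      Nat.cast_le]
    by_contra hc
    obtain ⟨j, hj⟩ := exists_coord (𝕜 := 𝕜) N (tag k).1
    let s : Fin n := ⟨j, by omega⟩
    have h4 : k < 4 ^ k := Nat.lt_pow_self (by norm_num)
    have l0 : lam k 0 = 0 := lam_low (by positivity)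
    have a1 := hk s q (by omega)
    have a2 := hk s 0 (by omega)
    have a3 := (hq s).le (.inr (k, 0))
    have a4 := (norm_gv k _).trans (mul_le_mul_of_nonneg_left (norm_PV (h1 s)) (by positivity))
    have e1 : gv k (PV (Q (ξ s) - Q (J (e s))).1) = gv k (PV (Q (ξ s)).1) - fn 𝕜 N (tag k).1 j := by
      rw [hQJ]
      change fn 𝕜 N (tag k).1 ⬝ᵥ (PV (Q (ξ s)).1 - v s) = _
      rw [dotProduct_sub]
      congr 1
      simp [dotProduct, v, s, Fin.val_inj]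
    have e2 : ∀ x : IX N → 𝕜, x (.inr (k, 0)) = YA x k 0 := fun x => by simp [YA, Wt, l0]
    rw [s3, s1.iterate_right, Submodule.coe_sub, Pi.sub_apply, e2 (Q (ξ s)).1, e2 (sr^[q] (Q (ξ s))).1,
      sr_iter, sh_iter, YA_ofA, add_zero] at a3
    rw [if_pos (by omega)] at a1
    rw [if_neg (by omega), sub_zero] at a2
    rw [e1, show (N + 1 : ℝ) * (1 / (4 * (N + 1))) = 1 / 4 by field_simp, norm_sub_rev] at a4
    rw [norm_sub_rev] at a1
    linarith [norm_sub_norm_le (fn 𝕜 N (tag k).1 j) (gv k (PV (Q (ξ s)).1)),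
      norm_sub_norm_le (gv k (PV (Q (ξ s)).1)) (YA (Q (ξ s)).1 k q),
      norm_sub_norm_le (YA (Q (ξ s)).1 k q) (YA (Q (ξ s)).1 k 0)]
  · rw [avg_mul]
    refine le_trans ?_ hl
    rw [div_eq_inv_mul]
    gcongr
    exact avg_lam k

end Pool.Agent.P.MP_cd1425_an.En
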