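import Pool.Agent.P.MP_cd1425_an.Cl.C0

/-! Arrays that return, for an arbitrary sequence of block values, and families of functionals. -/

set_option autoImplicit false

open Filter Topology

namespace Pool.Agent.P.MP_cd1425_an.En

open Cl

variable {𝕜 : Type} [RCLike 𝕜]

open Classical in
/-- Values at reduced positions. -/
noncomputable def bs (y : ℕ → ℕ → 𝕜) (G : ℕ → 𝕜) (i K k m : ℕ) : 𝕜 :=
  if k ≤ K then y k m
  else if m ≤ k ∨ (InBlock i K m ∧ m % 4 ^ (lev m + 2) ≤ lev m) then 0 else G k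

/-- The array of the approximating vector. -/
noncomputable def zz (y : ℕ → ℕ → 𝕜) (G : ℕ → 𝕜) (i K k m : ℕ) : 𝕜 := bs y G i K k (red i K k m)

variable {y : ℕ → ℕ → 𝕜} {G : ℕ → 𝕜} {i K : ℕ}

lemma norm_zz_le {B : ℝ} (hB : ∀ k n, ‖y k n‖ ≤ B) (hG : ∀ k, ‖G k‖ ≤ B) (k m : ℕ) :
    ‖zz y G i K k m‖ ≤ B := by
  unfold zz bs
  split_ifs
  exacts [hB _ _, norm_zero.trans_le ((norm_nonneg _).trans (hG 0)), hG _]

lemma zz_of_tag {k : ℕ} (hk : K < k) (h : G k = 0) (m : ℕ) : zz y G i K k m = 0 := by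
  unfold zz bs
  rw [if_neg (by omega), h, ite_self]

lemma zz_small {k m : ℕ} (hk : K < k) (hm : m ≤ k) : zz y G i K k m = 0 := by
  have : ¬ (InBlock i K m ∧ k ≤ lev m) := by
    rintro ⟨h1, h2⟩
    have h3 := h1.pow_le
    have h4 : lev m + 2 < 4 ^ (lev m + 2) := Nat.lt_pow_self (by norm_num)
    omega
  unfold zz bs
  rw [red_of_not this, if_neg (by omega), if_pos (Or.inl hm)]

lemma zz_not {k m : ℕ} (hk : K < k) (hm : k < m) (h : ¬ InBlock i K m) : zz y G i K k m = G k := by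
  unfold zz bs
  rw [red_of_not (fun h' => h h'.1), if_neg (by omega), if_neg]
  rintro (h' | h')
  · omega
  · exact h h'.1

lemma zz_low {k m : ℕ} (hk : k ≤ K) (hm : m < 2 * 4 ^ (K + 2)) : zz y G i K k m = y k m := by
  have : ¬ InBlock i K m := by
    intro h
    have h1 := h.pow_le
    have h2 : 4 ^ (K + 2) ≤ 4 ^ (lev m + 2) :=
      Nat.pow_le_pow_right (by norm_num) (by have := h.2.1; omega)
    omega
  unfold zz bs
  rw [red_of_not (fun h' => this h'.1), if_pos hk]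

lemma zz_copy {l n r k : ℕ} (hn : n ∈ retA i K l) (hr : r < 4 ^ (l + 2)) (hk : k ≤ l) :
    zz y G i K k (n + r) = zz y G i K k r := by
  obtain ⟨h1, h2, h3⟩ := retA.add hn hr
  unfold zz
  rw [red_of h1 (by omega), h2, h3]

lemma zz_zero_ret {l n j k : ℕ} (hn : n ∈ retA i K l) (hj : j ≤ l) (hk : l < k) :
    zz y G i K k (n + j) = 0 := by
  have h0 : l + 2 < 4 ^ (l + 2) := Nat.lt_pow_self (by norm_num)
  obtain ⟨h1, h2, h3⟩ := retA.add (r := j) hn (by omega)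
  have h4 := h1.2.1
  unfold zz bs
  rw [red_of_not (by rintro ⟨-, h⟩; omega), if_neg (by omega), if_pos]
  exact Or.inr ⟨h1, by rw [h2, h3]; exact hj⟩

section
variable (hG : ∀ k, (tag k).1 = i → G k = 0)
include hG

lemma zz_block {k m : ℕ} (hk : K < k) (h1 : 4 ^ k ≤ m) (h2 : m < 2 * 4 ^ (k + 1)) :
    zz y G i K k m = G k := by
  by_cases h : (tag k).1 = i
  · rw [zz_of_tag hk (hG k h), hG k h]
  · have : k < 4 ^ k := Nat.lt_pow_self (by norm_num)
    exact zz_not hk (by omega) (not_inBlock_of_ne h h1 h2)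

lemma zz_ret_block {l n j k n' : ℕ} (hn : n ∈ retA i K l) (hj : j ≤ l) (hk : l < k)
    (h1 : 4 ^ k ≤ n') (h2 : n' < 4 ^ (k + 1)) (h : ¬ (n + j + n') % 4 ^ (l + 2) ≤ l) :
    zz y G i K k (n + j + n') = G k := by
  obtain ⟨⟨a1, a2, a3, a4, a5⟩, a6, -⟩ := hn
  have hKk : K < k := by omega
  by_cases ht : (tag k).1 = i
  · rw [zz_of_tag hKk (hG k ht), hG k ht]
  have hk4 : k < 4 ^ k := Nat.lt_pow_self (by norm_num)
  have hl4 : l + 2 < 4 ^ (l + 2) := Nat.lt_pow_self (by norm_num)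
  have hl5 : 4 ^ (l + 2) ≤ 4 ^ Nat.log 4 n := Nat.pow_le_pow_right (by norm_num) (by omega)
  rcases lt_trichotomy k (Nat.log 4 n) with hlt | heq | hgt
  · have b1 : 4 ^ (k + 1) ≤ 4 ^ Nat.log 4 n := Nat.pow_le_pow_right (by norm_num) hlt
    by_cases hb : InBlock i K (n + j + n')
    · have hlog : Nat.log 4 (n + j + n') = Nat.log 4 n := by
        rcases lt_or_ge (n + j + n') (4 ^ (Nat.log 4 n + 1)) with c | c
        · exact log_eq_of (by omega) c
        · have c1 := hb.2.2.2.1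
          rw [log_eq_of c (by rw [pow_succ, pow_succ]; omega), pow_succ] at c1
          omega
      have hlev : lev (n + j + n') = l := by
        rw [← a6]; unfold lev; rw [hlog]
      unfold zz bs
      rw [red_of_not (by rintro ⟨-, h⟩; omega), if_neg (by omega), if_neg]
      rintro (h' | h')
      · omega
      · rw [hlev] at h'
        exact h h'.2
    · exact zz_not hKk (by omega) hb
  · exact absurd (heq ▸ a1) ht
  · have b1 : 4 ^ (Nat.log 4 n + 1) ≤ 4 ^ k := Nat.pow_le_pow_right (by norm_num) hgt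
    rw [pow_succ] at b1
    exact zz_block hG hKk (by omega) (by rw [pow_succ] at h2 ⊢; omega)

lemma lam_ret' {l n k t : ℕ} (hn : n ∈ retA i K l)
    (h : zz y G i K k (n + t) - zz y G i K k t ≠ 0) : l ≤ lam k t := by
  have hKl : K ≤ l := hn.2.1 ▸ hn.1.2.1
  have h1 := le_lam' k t
  have h4 : ∀ m, m < 4 ^ m := fun m => Nat.lt_pow_self (by norm_num)
  by_contra hc
  refine h (sub_eq_zero.2 ?_)
  rcases le_or_gt k l with hk | hk
  · have := Nat.pow_le_pow_right (show 0 < 4 by norm_num) (Nat.succ_le_succ hk)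
    exact zz_copy hn (by have := h4 (l + 1); rw [pow_succ 4 (l + 1)]; omega) hk
  rcases le_or_gt t l with ht | ht
  · rw [zz_zero_ret hn ht hk, zz_small (by omega) (by omega)]
  have h2 : 4 ^ k ≤ t := by
    by_contra c
    rw [lam_low (by omega)] at hc
    omega
  rw [zz_block hG (m := t) (by omega) h2 (by have := h4 (k + 1); omega)]
  have h3 : ¬ (n + t) % 4 ^ (l + 2) ≤ l := fun c => hc (le_lam (d := 0) h2 hk (Nat.zero_le _) (by
    obtain ⟨c', rfl⟩ := hn.2.2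
    rwa [Nat.mul_add_mod] at c))
  rcases lt_or_ge t (4 ^ (k + 1)) with c | c
  · exact zz_ret_block hG (j := 0) hn (Nat.zero_le _) hk h2 c h3
  · have e : n + t = n + l + (t - l) := by omega
    rw [e] at h3 ⊢
    exact zz_ret_block hG hn le_rfl hk (by have := h4 k; rw [pow_succ] at c; omega) (by omega) h3

lemma lam_big' {k t : ℕ} (hk : K < k) (h : zz y G i K k t - (if k < t then G k else 0) ≠ 0) :
    k ≤ lam k t ∧ t ≤ 2 * lam k t := by
  have h1 := le_lam' k t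
  have h4 : k + 1 < 4 ^ (k + 1) := Nat.lt_pow_self (by norm_num)
  split_ifs at h with c
  · rcases lt_or_ge t (4 ^ k) with c' | c'
    · rw [lam_low c']; omega
    · have : 2 * 4 ^ (k + 1) ≤ t := not_lt.1 fun e => h (by rw [zz_block hG hk c' e, sub_self])
      omega
  · exact absurd (by rw [zz_small hk (by omega), sub_self]) h

end

/-! ### functionals -/

lemma norm_dot_le {N : ℕ} (u w : Fin N → 𝕜) : ‖u ⬝ᵥ w‖ ≤ N * (‖u‖ * ‖w‖) := by
  refine (norm_sum_le _ _).trans ((Finset.sum_le_card_nsmul _ _ (‖u‖ * ‖w‖) fun j _ => ?_).trans_eq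
    (by simp))
  rw [norm_mul]
  gcongr <;> exact norm_le_pi_norm _ j

variable (𝕜) in
lemma exists_fn (N : ℕ) : ∃ u : ℕ → Fin (N + 1) → 𝕜, (∀ i, ‖u i‖ = 1) ∧
    ∀ v, ‖v‖ = 1 → ∀ δ > 0, ∃ i, ‖u i - v‖ < δ := by
  have : Nonempty (Metric.sphere (0 : Fin (N + 1) → 𝕜) 1) := ⟨⟨1, by simp⟩⟩
  obtain ⟨u, hu⟩ := TopologicalSpace.exists_dense_seq (Metric.sphere (0 : Fin (N + 1) → 𝕜) 1)
  refine ⟨fun i => u i, fun i => by simp, fun v hv δ hδ => ?_⟩
  obtain ⟨i, hi⟩ := hu.exists_dist_lt ⟨v, by simpa using hv⟩ hδ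
  exact ⟨i, by rwa [dist_comm, Subtype.dist_eq, dist_eq_norm] at hi⟩

variable (𝕜) in
/-- A dense sequence of normalised functionals. -/
noncomputable def fn (N : ℕ) : ℕ → Fin (N + 1) → 𝕜 := (exists_fn 𝕜 N).choose

lemma norm_fn (N i : ℕ) : ‖fn 𝕜 N i‖ = 1 := (exists_fn 𝕜 N).choose_spec.1 i

lemma exists_coord (N i : ℕ) : ∃ j, ‖fn 𝕜 N i j‖ = 1 := by
  by_contra h
  refine ((pi_norm_lt_iff one_pos).2 fun j => lt_of_le_of_ne ?_ fun e => h ⟨j, e⟩).ne (norm_fn N i)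
  exact (norm_le_pi_norm _ j).trans_eq (norm_fn N i)

lemma norm_fn_dot (N i : ℕ) (w : Fin (N + 1) → 𝕜) : ‖fn 𝕜 N i ⬝ᵥ w‖ ≤ (N + 1) * ‖w‖ := by
  simpa [norm_fn] using norm_dot_le (fn 𝕜 N i) w

lemma exists_ker {N n : ℕ} (hn : n ≤ N) (w : Fin n → Fin (N + 1) → 𝕜) {ε : ℝ} (hε : 0 < ε) :
    ∃ (i : ℕ) (w' : Fin n → Fin (N + 1) → 𝕜), ∀ s, fn 𝕜 N i ⬝ᵥ w' s = 0 ∧ ‖w s - w' s‖ ≤ ε := by
  classical
  obtain ⟨v, hv, hv0⟩ := Submodule.exists_mem_ne_zero_of_ne_bot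
    (LinearMap.ker_ne_bot_of_finrank_lt (f := Matrix.mulVecLin (Matrix.of w)) (by simp; omega))
  have hp := norm_pos_iff.2 hv0
  obtain ⟨i, hi⟩ := (exists_fn 𝕜 N).choose_spec.2 (((‖v‖⁻¹ : ℝ) : 𝕜) • v)
    (by rw [norm_smul, RCLike.norm_ofReal, abs_inv, abs_norm, inv_mul_cancel₀ hp.ne'])
    (ε / ((N + 1) * (‖w‖ + 1))) (by positivity)
  obtain ⟨j, hj⟩ := exists_coord (𝕜 := 𝕜) N i
  have hj0 : fn 𝕜 N i j ≠ 0 := norm_pos_iff.1 (hj ▸ one_pos)
  refine ⟨i, fun s => w s - Pi.single j (fn 𝕜 N i ⬝ᵥ w s / fn 𝕜 N i j), fun s => ⟨?_, ?_⟩⟩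
  · rw [dotProduct_sub, dotProduct_single, mul_div_cancel₀ _ hj0, sub_self]
  · have e : v ⬝ᵥ w s = 0 := (dotProduct_comm _ _).trans (congrFun hv s)
    have h := norm_dot_le (fn 𝕜 N i - ((‖v‖⁻¹ : ℝ) : 𝕜) • v) (w s)
    rw [sub_dotProduct, smul_dotProduct, e, smul_zero, sub_zero] at h
    rw [sub_sub_cancel, Pi.norm_single, norm_div, hj, div_one]
    rw [lt_div_iff₀ (by positivity)] at hi
    refine h.trans (le_trans ?_ hi.le)
    have := norm_le_pi_norm w s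
    push_cast
    rw [mul_left_comm]
    gcongr
    · exact le_rfl
    · linarith

end Pool.Agent.P.MP_cd1425_an.En
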