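import Mathlib

/-! The space of entire functions. -/

set_option autoImplicit false

namespace Pool.Agent.P.MP_cd1425_an

/-- The entire functions, a subspace of the continuous functions `ℂ → ℂ` with the compact-open
topology (uniform convergence on compact sets). -/
def Entire : Submodule ℂ C(ℂ, ℂ) where
  carrier := {f | Differentiable ℂ f}
  add_mem' := Differentiable.add
  zero_mem' := differentiable_const 0
  smul_mem' c _ h := Differentiable.const_smul h c

end Pool.Agent.P.MP_cd1425_an
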