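import Pool.Agent.P.MP_cd1425_an.En.Abs
import Pool.Agent.P.MP_cd1425_an.En.EDefs

/-! The sequence space is complemented in the space of entire functions. -/

set_option autoImplicit false

open Filter Topology Function Metric FormalMultilinearSeries

namespace Pool.Agent.P.MP_cd1425_an.En

variable {N : ℕ}

lemma ent_small (R : ℝ) {ε : ℝ} (hε : 0 < ε) :
    ∀ᶠ f : Entire in 𝓝 0, ∀ z, ‖z‖ ≤ R → ‖f.1 z‖ ≤ ε :=
  ((continuous_subtype_val.tendsto (0 : Entire)).eventually
    (ContinuousMap.eventually_mapsTo (isCompact_closedBall 0 R) (isOpen_ball (x := 0) (ε := ε))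
      fun _ _ => mem_ball_self hε)).mono fun _ hf _ hz =>
        (mem_ball_zero_iff.1 (hf (mem_closedBall_zero_iff.2 hz))).le

lemma ent_basis {U : Set Entire} (hU : U ∈ 𝓝 0) : ∃ (r : ℕ) (ε : ℝ), 0 < ε ∧
    ∀ f : Entire, (∀ z, ‖z‖ ≤ r → ‖f.1 z‖ ≤ ε) → f ∈ U := by
  obtain ⟨V, hV, hU⟩ := (mem_nhds_induced _ _ _).1 hU
  obtain ⟨⟨K, ε⟩, ⟨hK, hε⟩, hV⟩ :=
    (nhds_basis_uniformity' uniformity_basis_dist_le.compactConvergenceUniformity).mem_iff.1 hV
  obtain ⟨R, hR⟩ := hK.isBounded.exists_norm_le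
  obtain ⟨r, hr⟩ := exists_nat_ge R
  exact ⟨r, ε, hε, fun f hf => hU (hV fun z hz => by simpa using hf z ((hR z hz).trans hr))⟩

theorem uniformAddGroup_entire : IsUniformAddGroup Entire :=
  IsUniformInducing.isUniformAddGroup (H := UniformOnFun ℂ ℂ {K | IsCompact K})
    (AddMonoidHom.mk' (fun f : Entire => f.1.toUniformOnFunIsCompact) fun _ _ => rfl)
    (ContinuousMap.isUniformEmbedding_toUniformOnFunIsCompact.isUniformInducing.comp
      isUniformEmbedding_subtype_val.isUniformInducing)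

theorem frechet_entire [IsUniformAddGroup Entire] : IsFrechet ℂ Entire := by
  have hc : IsClosed (Entire : Set C(ℂ, ℂ)) := isClosed_iff_ultrafilter.2 fun f u hu hm =>
    differentiableOn_univ.1 ((tendstoLocallyUniformlyOn_univ.2
      (ContinuousMap.tendsto_iff_tendstoLocallyUniformly.1 (tendsto_id'.2 hu))).differentiableOn
        (eventually_of_mem hm fun g hg => Differentiable.differentiableOn hg) isOpen_univ)
  let p : ℕ → Seminorm ℂ Entire := fun r => .of (fun f => ‖f.1.restrict (closedBall 0 r)‖)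
    (fun f g => norm_add_le (f.1.restrict _) (g.1.restrict _))
    fun c f => norm_smul c (f.1.restrict (closedBall 0 r))
  refine ⟨inferInstance, hc.completeSpace_coe, p,
    (SeminormFamily.withSeminorms_iff_nhds_eq_iInf p).2 (le_antisymm (le_iInf fun r => ?_)
      fun U hU => ?_)⟩
  · rw [← tendsto_iff_comap, ← map_zero (p r)]
    have : Continuous fun f : Entire => f.1.restrict (closedBall (0 : ℂ) r) :=
      (ContinuousMap.continuous_restrict _).comp continuous_subtype_val
    exact (Continuous.norm (E := C(closedBall (0 : ℂ) r, ℂ)) this).tendsto 0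
  · obtain ⟨r, ε, hε, h⟩ := ent_basis hU
    refine mem_iInf_of_mem r (mem_comap.2 ⟨_, Iic_mem_nhds hε, fun f hf => h f fun z hz => ?_⟩)
    exact ((f.1.restrict (closedBall 0 r)).norm_coe_le_norm
      ⟨z, mem_closedBall_zero_iff.2 hz⟩).trans hf

/-- The Taylor index attached to a coordinate. -/
def nu : IX N → ℕ := Sum.elim (fun j => j) fun p => N + 1 + (p.1 + p.2) ^ 2 + p.2

lemma nu_inj : Injective (nu (N := N)) := by
  have key : ∀ s s' b d : ℕ, b ≤ s → s ^ 2 + b = s' ^ 2 + d → s' ≤ s := fun s s' b d h e => by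
    by_contra c
    have := Nat.pow_le_pow_left (not_le.1 c) 2
    simp only [Nat.succ_eq_add_one] at this
    nlinarith
  rintro (j | ⟨a, b⟩) (j' | ⟨c, d⟩) e <;> simp only [nu, Sum.elim_inl, Sum.elim_inr] at e
  · rw [Fin.ext e]
  · omega
  · omega
  · have h1 := key (a + b) (c + d) b d (by omega) (by omega)
    have h2 := key (c + d) (a + b) d b (by omega) (by omega)
    have h3 : a + b = c + d := by omega
    rw [h3] at e
    congr 2 <;> omega

lemma be_le (a : IX N) : be a ≤ 2 * nu a := by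
  rcases a with j | ⟨k, t⟩ <;> simp only [be, nu, Sum.elim_inl, Sum.elim_inr]
  · omega
  · nlinarith [sq_nonneg ((k : ℤ) + t - 1)]

lemma nu_le (a : IX N) : nu a ≤ N + 1 + be a := by
  rcases a with j | ⟨k, t⟩ <;> simp only [be, nu, Sum.elim_inl, Sum.elim_inr]
  · omega
  · nlinarith [Nat.zero_le k]

lemma coef_le {f : Entire} {m : ℕ} {ε : ℝ} (h : ∀ z, ‖z‖ ≤ 2 ^ (2 * m) → ‖f.1 z‖ ≤ ε) :
    Sm m ε fun a : IX N => iteratedDeriv (nu a) f.1 0 / (nu a).factorial := fun a => by
  have h1 := Complex.norm_iteratedDeriv_le_of_forall_mem_sphere_norm_le (c := 0) (nu a)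
    (show (0 : ℝ) < 2 ^ (2 * m) by positivity) (Differentiable.diffContOnCl f.2)
    fun z hz => h z (mem_sphere_zero_iff_norm.1 hz).le
  rw [le_div_iff₀ (by positivity), ← pow_mul] at h1
  rw [norm_div, Complex.norm_natCast, div_mul_eq_mul_div, div_le_iff₀' (by positivity)]
  exact le_trans (mul_le_mul_of_nonneg_left
    (pow_le_pow_right₀ one_le_two (by nlinarith [be_le a])) (norm_nonneg _)) h1

/-- The selected Taylor coefficients. -/
noncomputable def QE : Entire →ₗ[ℂ] RD ℂ N where
  toFun f := ⟨fun a => iteratedDeriv (nu a) f.1 0 / (nu a).factorial, fun m =>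
    let ⟨C, h⟩ := (isCompact_closedBall (0 : ℂ) (2 ^ (2 * m))).exists_bound_of_continuousOn
      f.1.continuous.continuousOn
    ⟨C, coef_le fun z hz => h z (mem_closedBall_zero_iff.2 hz)⟩⟩
  map_add' f g := Subtype.ext (funext fun a => by
    change iteratedDeriv _ (f.1 + g.1 : ℂ → ℂ) 0 / _ = _ / _ + _ / _
    rw [iteratedDeriv_add (Differentiable.contDiff f.2).contDiffAt
      (Differentiable.contDiff g.2).contDiffAt, add_div])
  map_smul' c f := Subtype.ext (funext fun a => by
    change iteratedDeriv _ (c • f.1 : ℂ → ℂ) 0 / _ = c * (_ / _)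
    rw [iteratedDeriv_const_smul (Differentiable.contDiff f.2).contDiffAt, smul_eq_mul,
      mul_div_assoc])

lemma ext_le {y : IX N → ℂ} {r : ℕ} {ε : ℝ} (h : Sm (r + 1) ε y) {x : ℝ} (h0 : 0 ≤ x)
    (hx : x ≤ r) (n : ℕ) :
    ‖extend nu y 0 n‖ * x ^ n ≤ 2 ^ ((N + 1) * (r + 1)) * ε * (1 / 2) ^ n := by
  have h1 : 0 ≤ ε := (norm_nonneg _).trans (h.le (.inl 0))
  by_cases c : ∃ a : IX N, nu a = n
  · obtain ⟨a, rfl⟩ := c
    have h2 : x ≤ 2 ^ r := hx.trans (by exact_mod_cast Nat.lt_two_pow_self.le)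
    rw [nu_inj.extend_apply, one_div, inv_pow, ← div_eq_mul_inv, le_div_iff₀ (by positivity)]
    refine le_trans ?_ (mul_le_mul_of_nonneg_left (h a) (by positivity))
    rw [mul_left_comm, ← pow_add, mul_assoc]
    gcongr
    refine (mul_le_mul_of_nonneg_right (pow_le_pow_left₀ h0 h2 _) (by positivity)).trans ?_
    rw [← pow_mul, ← pow_add]
    exact pow_le_pow_right₀ one_le_two (by nlinarith [nu_le a])
  · rw [extend_apply' _ _ _ c, Pi.zero_apply, norm_zero, zero_mul]
    positivity

lemma sm_sum (y : RD ℂ N) {x : ℝ} (h0 : 0 ≤ x) : Summable fun n => ‖extend nu y.1 0 n‖ * x ^ n := by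
  obtain ⟨r, hr⟩ := exists_nat_ge x
  obtain ⟨C, hC⟩ := y.2 (r + 1)
  exact .of_nonneg_of_le (fun _ => by positivity) (ext_le hC h0 hr)
    (summable_geometric_two.mul_left _)

lemma sm_sum' (y : RD ℂ N) (z : ℂ) : Summable fun n => extend nu y.1 0 n • z ^ n :=
  .of_norm (by simpa using sm_sum y (norm_nonneg z))

lemma has_ps (y : RD ℂ N) : HasFPowerSeriesOnBall (fun z : ℂ => ∑' n, extend nu y.1 0 n • z ^ n)
    (ofScalars ℂ (extend nu y.1 0)) 0 ⊤ := by
  have h : (ofScalars ℂ (extend nu y.1 0)).radius = ⊤ :=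
    radius_eq_top_of_summable_norm _ fun r => by simpa using sm_sum y r.2
  rw [← ofScalarsSum_eq_tsum, ← h]
  exact FormalMultilinearSeries.hasFPowerSeriesOnBall _ (by simp [h])

lemma diff_ps (y : RD ℂ N) : Differentiable ℂ fun z : ℂ => ∑' n, extend nu y.1 0 n • z ^ n := by
  simpa [differentiableOn_univ] using (has_ps y).differentiableOn

/-- The power series with given coefficients. -/
noncomputable def JE : RD ℂ N →ₗ[ℂ] Entire where
  toFun y := ⟨⟨_, (diff_ps y).continuous⟩, diff_ps y⟩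
  map_add' x y := Subtype.ext (ContinuousMap.ext fun z => by
    refine .trans (tsum_congr fun n => ?_) ((sm_sum' x z).tsum_add (sm_sum' y z))
    classical
    rw [extend_def, extend_def, extend_def]
    split_ifs <;> simp [add_mul])
  map_smul' c x := Subtype.ext (ContinuousMap.ext fun z => by
    refine .trans (tsum_congr fun n => ?_) ((sm_sum' x z).tsum_const_smul c)
    classical
    rw [extend_def, extend_def]
    split_ifs <;> simp [mul_assoc])

theorem sharp_entire (N : ℕ) : ∃ T : Entire →L[ℂ] Entire,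
    (∀ n ≤ N, FrequentlyRecurrent (directSum n T)) ∧
      ∀ n, N < n → ¬ UFrequentlyRecurrent (directSum n T) := by
  refine sharp (X := Entire) QE JE (fun y => Subtype.ext (funext fun a => ?_))
    (fun m ε hε => (ent_small (2 ^ (2 * m)) hε).mono fun f hf => coef_le hf) fun U hU => ?_
  · have := (has_ps y).factorial_smul 1 (nu a)
    rw [ofScalars_apply_eq, ← iteratedDeriv_eq_iteratedFDeriv, nu_inj.extend_apply] at this
    change iteratedDeriv _ (fun z : ℂ => ∑' n, extend nu y.1 0 n • z ^ n) 0 / _ = _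
    rw [← this]
    have : ((nu a).factorial : ℂ) ≠ 0 := Nat.cast_ne_zero.2 (Nat.factorial_ne_zero _)
    simp [mul_div_cancel_left₀ _ this]
  · obtain ⟨r, ε, hε, h⟩ := ent_basis hU
    refine ⟨r + 1, ε / (2 ^ ((N + 1) * (r + 1)) * 2), by positivity, fun y hy => h _ fun z hz => ?_⟩
    refine (tsum_of_norm_bounded (hasSum_geometric_two.mul_left _) fun n =>
      le_of_eq_of_le (by simp) (ext_le hy (norm_nonneg z) hz n)).trans_eq ?_
    field_simp

end Pool.Agent.P.MP_cd1425_an.En
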