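import Pool.Agent.P.MP_cd1425_an.En.Comb

/-! The operator on rapidly decreasing arrays. -/

set_option autoImplicit false

open Filter Topology

namespace Pool.Agent.P.MP_cd1425_an.En

open Cl

variable {𝕜 : Type} [RCLike 𝕜] {N : ℕ}

/-- The index set. -/
abbrev IX (N : ℕ) := Fin (N + 1) ⊕ ℕ × ℕ

/-- The exponents of the weights. -/
def be : IX N → ℕ := Sum.elim (fun _ => 0) fun p => (p.1 + p.2 + 1) ^ 2

/-- The seminorm of index `m` of `x` is at most `ε`. -/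
def Sm (m : ℕ) (ε : ℝ) (x : IX N → 𝕜) : Prop := ∀ a, ‖x a‖ * 2 ^ (be a * m) ≤ ε

lemma Sm.add {m : ℕ} {ε δ : ℝ} {x y : IX N → 𝕜} (h : Sm m ε x) (h' : Sm m δ y) :
    Sm m (ε + δ) (x + y) := fun a => by
  refine le_trans ?_ (add_le_add (h a) (h' a))
  rw [← add_mul]
  gcongr
  exact norm_add_le _ _

lemma Sm.mono {m m' : ℕ} {ε δ : ℝ} {x : IX N → 𝕜} (h : Sm m ε x) (hm : m' ≤ m) (hε : ε ≤ δ) :
    Sm m' δ x := fun a => by
  refine le_trans ?_ ((h a).trans hε)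
  gcongr
  norm_num

lemma Sm.le {m : ℕ} {ε : ℝ} {x : IX N → 𝕜} (h : Sm m ε x) (a : IX N) : ‖x a‖ ≤ ε := by
  simpa using h.mono (Nat.zero_le _) le_rfl a

variable (𝕜 N) in
/-- Rapidly decreasing families. -/
def RD : Submodule 𝕜 (IX N → 𝕜) where
  carrier := {x | ∀ m, ∃ C, Sm m C x}
  add_mem' h h' m := let ⟨_, a⟩ := h m; let ⟨_, b⟩ := h' m; ⟨_, a.add b⟩
  zero_mem' m := ⟨0, fun a => by simp⟩
  smul_mem' c x h m := let ⟨C, b⟩ := h m; ⟨‖c‖ * C, fun a => by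
    rw [Pi.smul_apply, norm_smul, mul_assoc]
    exact mul_le_mul_of_nonneg_left (b a) (norm_nonneg _)⟩

variable (𝕜) in
/-- The weights. -/
noncomputable def Wt (k t : ℕ) : 𝕜 := 2 ^ ((k + t + 1) ^ 2 * lam k t)

lemma norm_Wt (k t : ℕ) : ‖Wt 𝕜 k t‖ = 2 ^ ((k + t + 1) ^ 2 * lam k t) := by simp [Wt]

lemma Wt_ne (k t : ℕ) : Wt 𝕜 k t ≠ 0 := norm_pos_iff.1 (by rw [norm_Wt]; positivity)

lemma div_Wt {a : 𝕜} {B : ℝ} {k t e L M : ℕ} (ha : ‖a‖ ≤ B)
    (h : a ≠ 0 → e + L ≤ (k + t + 1) ^ 2 * lam k t + M) :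
    ‖a / Wt 𝕜 k t‖ * 2 ^ e ≤ B * 2 ^ M / 2 ^ L := by
  have := (norm_nonneg a).trans ha
  rcases eq_or_ne a 0 with rfl | h0
  · rw [zero_div, norm_zero, zero_mul]; positivity
  · rw [norm_div, norm_Wt, div_mul_eq_mul_div, div_le_div_iff₀ (by positivity) (by positivity),
      mul_assoc, mul_assoc, ← pow_add, ← pow_add]
    exact mul_le_mul ha (pow_le_pow_right₀ one_le_two ((h h0).trans_eq (add_comm _ _)))
      (by positivity) this

lemma div_Wt' {a : 𝕜} {B : ℝ} {k t m L : ℕ} (ha : ‖a‖ ≤ B) (h : a ≠ 0 → m + L ≤ lam k t) :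
    ‖a / Wt 𝕜 k t‖ * 2 ^ ((k + t + 1) ^ 2 * m) ≤ B / 2 ^ L := by
  simpa using div_Wt (M := 0) (e := (k + t + 1) ^ 2 * m) (L := L) ha fun h0 => by
    have h1 := Nat.mul_le_mul_left ((k + t + 1) ^ 2) (h h0)
    have h2 : 1 * L ≤ (k + t + 1) ^ 2 * L := Nat.mul_le_mul_right _ (Nat.one_le_pow _ _ (by omega))
    rw [mul_add] at h1
    omega

/-- The functional attached to the scale `k`. -/
noncomputable def gv (k : ℕ) (w : Fin (N + 1) → 𝕜) : 𝕜 := fn 𝕜 N (tag k).1 ⬝ᵥ w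

lemma norm_gv (k : ℕ) (w : Fin (N + 1) → 𝕜) : ‖gv k w‖ ≤ (N + 1) * ‖w‖ := norm_fn_dot _ _ _

/-- The finite part. -/
def PV (x : IX N → 𝕜) : Fin (N + 1) → 𝕜 := fun j => x (.inl j)

/-- The coordinates of an array. -/
noncomputable def ofA (v : Fin (N + 1) → 𝕜) (y : ℕ → ℕ → 𝕜) : IX N → 𝕜
  | .inl j => v j
  | .inr p => (y p.1 p.2 - if p.1 < p.2 then gv p.1 v else 0) / Wt 𝕜 p.1 p.2

/-- The array of a family. -/
noncomputable def YA (x : IX N → 𝕜) (k t : ℕ) : 𝕜 :=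
  Wt 𝕜 k t * x (.inr (k, t)) + if k < t then gv k (PV x) else 0

/-- The shift. -/
noncomputable def sh : (IX N → 𝕜) →ₗ[𝕜] (IX N → 𝕜) where
  toFun x := ofA (PV x) fun k t => YA x k (t + 1)
  map_add' x y := funext fun a => by
    have e : PV (x + y) = PV x + PV y := rfl
    rcases a with b | p <;> simp only [ofA, YA, gv, e, dotProduct_add, Pi.add_apply]
    split_ifs <;> ring
  map_smul' c x := funext fun a => by
    have e : PV (c • x) = c • PV x := rfl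
    rcases a with b | p <;> simp only [ofA, YA, gv, e, dotProduct_smul, Pi.smul_apply,
      smul_eq_mul, RingHom.id_apply]
    split_ifs <;> ring

lemma YA_ofA (v : Fin (N + 1) → 𝕜) (y : ℕ → ℕ → 𝕜) (k t : ℕ) : YA (ofA v y) k t = y k t := by
  change Wt 𝕜 k t * (_ / _) + (if k < t then gv k v else 0) = _
  rw [mul_div_cancel₀ _ (Wt_ne k t), sub_add_cancel]

lemma sh_iter (x : IX N → 𝕜) (n : ℕ) : sh^[n] x = ofA (PV x) fun k t => YA x k (n + t) := by
  induction n with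
  | zero =>
    funext a
    rcases a with b | ⟨k, t⟩
    · rfl
    · simp only [ofA, YA, zero_add]
      rw [add_sub_cancel_right, mul_div_cancel_left₀ _ (Wt_ne k t)]
      rfl
  | succ n ih =>
    rw [Function.iterate_succ_apply', ih]
    change ofA (PV x) (fun k t => YA _ k (t + 1)) = _
    simp only [YA_ofA, add_assoc, add_comm 1]

lemma norm_PV {m : ℕ} {ε : ℝ} {x : IX N → 𝕜} (h : Sm m ε x) : ‖PV x‖ ≤ ε :=
  (pi_norm_le_iff_of_nonempty _).2 fun _ => h.le _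

lemma sh_sm (m : ℕ) {ε : ℝ} {x : IX N → 𝕜} (h : Sm (m + 3) ε x) :
    Sm m ((1 + (N + 1) * 2 ^ ((2 * m + 1) ^ 2 * m)) * ε) (sh x) := by
  have h0 : 0 ≤ ε := (norm_nonneg _).trans (h.le (.inl 0))
  rintro (j | ⟨k, t⟩)
  · refine (h (.inl j)).trans (le_mul_of_one_le_left h0 ?_)
    exact le_add_of_nonneg_right (by positivity)
  have e : sh x (.inr (k, t)) = Wt 𝕜 k (t + 1) * x (.inr (k, t + 1)) / Wt 𝕜 k t +
      (if k = t then gv k (PV x) else 0) / Wt 𝕜 k t := by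
    change (YA x k (t + 1) - if k < t then gv k (PV x) else 0) / Wt 𝕜 k t = _
    simp only [YA]
    split_ifs <;> first | omega | ring
  have h1 := div_Wt (a := Wt 𝕜 k (t + 1) * x (.inr (k, t + 1))) (k := k) (t := t) (L := 0)
    (e := (k + t + 1) ^ 2 * m + (k + (t + 1) + 1) ^ 2 * lam k (t + 1))
    (M := (k + (t + 1) + 1) ^ 2 * (m + 3)) le_rfl fun _ => by
      have a1 := Nat.mul_le_mul_left ((k + (t + 1) + 1) ^ 2) (lam_succ k t)
      have a2 := Nat.mul_le_mul_left (2 * (k + t) + 3) (lam_le_add k t)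
      nlinarith [Nat.zero_le (m * (k + t))]
  have h2 := div_Wt (a := if k = t then gv k (PV x) else 0) (B := (N + 1) * ε) (k := k) (t := t)
    (L := 0) (e := (k + t + 1) ^ 2 * m) (M := (2 * m + 1) ^ 2 * m) (by
      split_ifs
      · exact (norm_gv _ _).trans (by gcongr; exact norm_PV h)
      · rw [norm_zero]; positivity) fun c => by
      obtain rfl : k = t := by by_contra c'; exact c (if_neg c')
      rw [lam_low (Nat.lt_pow_self (by norm_num))]
      rcases le_total m k with c' | c'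
      · have := Nat.mul_le_mul_left ((k + k + 1) ^ 2) c'
        omega
      · have : (k + k + 1) ^ 2 * m ≤ (2 * m + 1) ^ 2 * m := by gcongr; omega
        omega
  have h3 := h (.inr (k, t + 1))
  rw [norm_mul, norm_Wt, pow_add, pow_zero, div_one, ← mul_assoc, mul_assoc (2 ^ _),
    mul_comm (2 ^ _)] at h1
  have h4 := (le_of_mul_le_mul_right h1 (by positivity)).trans h3
  rw [e]
  change _ * 2 ^ ((k + t + 1) ^ 2 * m) ≤ _
  refine le_trans (mul_le_mul_of_nonneg_right (norm_add_le _ _) (by positivity)) ?_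
  rw [add_mul]
  linarith

/-- The shift on rapidly decreasing families. -/
noncomputable def sr : RD 𝕜 N →ₗ[𝕜] RD 𝕜 N :=
  sh.restrict fun _ h m => let ⟨_, b⟩ := h (m + 3); ⟨_, sh_sm m b⟩

lemma sr_iter (x : RD 𝕜 N) (n : ℕ) : (sr^[n] x).1 = sh^[n] x.1 :=
  Function.Semiconj.iterate_right (f := Subtype.val) (ga := sr) (gb := sh) (fun _ => rfl) n x

lemma exists_two_pow (B : ℝ) {ε : ℝ} (hε : 0 < ε) (K : ℕ) : ∃ L : ℕ, K ≤ L ∧ B / 2 ^ L ≤ ε := by
  obtain ⟨l, h1, h2⟩ := exists_div_le |B| hε K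
  refine ⟨l, h1, le_trans ?_ h2⟩
  have : ((l + 1 : ℕ) : ℝ) ≤ (2 ^ l : ℕ) := Nat.cast_le.2 Nat.lt_two_pow_self
  push_cast at this
  gcongr
  · exact le_abs_self B
  · linarith

section
variable {w : Fin (N + 1) → 𝕜} {y : ℕ → ℕ → 𝕜} {i K : ℕ} {B : ℝ} (hw : fn 𝕜 N i ⬝ᵥ w = 0)
  (hB : ∀ k n, ‖y k n‖ ≤ B) (hG : (N + 1) * ‖w‖ ≤ B)
include hw

lemma gv_zero (k : ℕ) (h : (tag k).1 = i) : gv k w = 0 := by rw [gv, h, hw]

include hB hG

omit hw in
lemma num_le' (k t : ℕ) :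
    ‖zz y (gv · w) i K k t - if k < t then gv k w else 0‖ ≤ B + B := by
  refine (norm_sub_le _ _).trans (add_le_add (norm_zz_le hB (fun k => (norm_gv k w).trans hG) k t) ?_)
  split_ifs
  exacts [(norm_gv k w).trans hG, norm_zero.trans_le ((norm_nonneg _).trans (hB 0 0))]

lemma zz_mem : ofA w (zz y (gv · w) i K) ∈ RD 𝕜 N := fun m => by
  have h0 := (norm_nonneg _).trans (hB 0 0)
  refine ⟨‖w‖ + (B + B) * 2 ^ ((3 * m + K + 4 ^ (K + 1) + 1) ^ 2 * m), ?_⟩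
  rintro (j | ⟨k, t⟩)
  · refine le_add_of_le_of_nonneg ?_ (by positivity)
    simpa [be, ofA] using norm_le_pi_norm w j
  refine le_add_of_nonneg_of_le (norm_nonneg _) ((div_Wt (L := 0)
    (M := (3 * m + K + 4 ^ (K + 1) + 1) ^ 2 * m) (num_le' hB hG k t)
    fun c => ?_).trans_eq (by rw [pow_zero, div_one]))
  change (k + t + 1) ^ 2 * m + 0 ≤ (k + t + 1) ^ 2 * lam k t + _
  rcases le_total (k + t) (3 * m + K + 4 ^ (K + 1)) with h | h
  · have : (k + t + 1) ^ 2 * m ≤ (3 * m + K + 4 ^ (K + 1) + 1) ^ 2 * m := by gcongr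
    omega
  · refine le_add_of_le_of_nonneg (Nat.mul_le_mul_left _ ?_) (Nat.zero_le _)
    rcases le_or_gt k K with c' | c'
    · have := le_lam' k t
      have := Nat.pow_le_pow_right (show 0 < 4 by norm_num) (Nat.succ_le_succ c')
      omega
    · have := lam_big' (gv_zero hw) c' c
      have := Nat.zero_le (4 ^ (K + 1))
      omega

lemma zz_ret {m L n : ℕ} (hn : n ∈ retA i K (m + L)) : Sm m ((B + B) / 2 ^ L)
    (sh^[n] (ofA w (zz y (gv · w) i K)) - ofA w (zz y (gv · w) i K)) := by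
  have h0 := (norm_nonneg _).trans (hB 0 0)
  have h1 := norm_zz_le (i := i) (K := K) hB (fun k => (norm_gv k w).trans hG)
  rw [sh_iter]
  rintro (j | ⟨k, t⟩)
  · change ‖w j - w j‖ * _ ≤ _
    rw [sub_self, norm_zero, zero_mul]
    positivity
  change ‖(YA _ k (n + t) - if k < t then gv k w else 0) / _ - (_ - _) / _‖ * _ ≤ _
  rw [YA_ofA, ← sub_div, sub_sub_sub_cancel_right]
  exact div_Wt' ((norm_sub_le _ _).trans (add_le_add (h1 ..) (h1 ..))) (lam_ret' (gv_zero hw) hn)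

end

lemma tail_le (x : RD 𝕜 N) (m : ℕ) {ε : ℝ} (hε : 0 < ε) :
    ∃ R, ∀ k t, R ≤ k + t → ‖x.1 (.inr (k, t))‖ * 2 ^ ((k + t + 1) ^ 2 * m) ≤ ε := by
  obtain ⟨C, hC⟩ := x.2 (m + 1)
  obtain ⟨R, -, hR⟩ := exists_two_pow C hε 0
  refine ⟨R, fun k t h => le_trans ?_ hR⟩
  rw [le_div_iff₀ (by positivity), mul_assoc, ← pow_add]
  refine le_trans ?_ (hC (.inr (k, t)))
  gcongr
  · norm_num
  · change _ ≤ (k + t + 1) ^ 2 * (m + 1)
    nlinarith

lemma approx {n : ℕ} (hn : n ≤ N) (x : Fin n → RD 𝕜 N) (m : ℕ) {ε : ℝ} (hε : 0 < ε) :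
    ∃ (r : Fin n → RD 𝕜 N) (i K : ℕ), (∀ s, Sm m ε (r s - x s).1) ∧ ∀ (m' : ℕ) (δ : ℝ), 0 < δ →
      ∃ l, K ≤ l ∧ ∀ q ∈ retA i K l, ∀ s, Sm m' δ (sr^[q] (r s) - r s).1 := by
  obtain ⟨i, w, hw⟩ := exists_ker hn (fun s => PV (x s).1) hε
  choose R hR using fun s => tail_le (x s) m (half_pos hε)
  choose C hC using fun s => (x s).2 0
  obtain ⟨R', hR'⟩ := (Set.finite_range R).bddAbove
  let B : ℝ := 2 ^ ((R' + 1) ^ 2 * R') * ‖C‖ + (N + 1) * ‖w‖
  obtain ⟨L, h1, h2⟩ := exists_two_pow (B + B) (half_pos hε) R'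
  let y : Fin n → ℕ → ℕ → 𝕜 := fun s k t =>
    (if k + t < R' then Wt 𝕜 k t * (x s).1 (.inr (k, t)) else 0) + if k < t then gv k (w s) else 0
  have hw' : ∀ s, (N + 1) * ‖w s‖ ≤ (N + 1) * ‖w‖ := fun s => by gcongr; exact norm_le_pi_norm w s
  have hG : ∀ s, (N + 1) * ‖w s‖ ≤ B := fun s => le_add_of_nonneg_of_le (by positivity) (hw' s)
  have hB : ∀ s k t, ‖y s k t‖ ≤ B := fun s k t => by
    refine (norm_add_le _ _).trans (add_le_add ?_ ?_) <;> split_ifs with c'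
    · rw [norm_mul, norm_Wt]
      have := lam_le_add k t
      gcongr
      · norm_num
      · omega
      · exact ((hC s).le _).trans ((le_abs_self _).trans (norm_le_pi_norm C s))
    · rw [norm_zero]; positivity
    · exact (norm_gv _ _).trans (hw' s)
    · rw [norm_zero]; positivity
  refine ⟨fun s => ⟨_, zz_mem (K := m + L) (hw s).1 (hB s) (hG s)⟩, i, m + L, fun s => ?_,
    fun m' δ hδ => ?_⟩
  · rintro (j | ⟨k, t⟩)
    · have := (norm_le_pi_norm _ j).trans ((norm_sub_rev _ _).trans_le (hw s).2)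
      simpa [be, ofA, PV] using this
    have h3 := fun h : R' ≤ k + t => hR s k t ((hR' ⟨s, rfl⟩).trans h)
    have h4 : m + L + 1 < 4 ^ (m + L + 1) := Nat.lt_pow_self (by norm_num)
    change ‖(_ - _) / _ - (x s).1 _‖ * 2 ^ ((k + t + 1) ^ 2 * m) ≤ _
    by_cases c : k ≤ m + L ∧ t < 2 * 4 ^ (m + L + 2)
    · rw [zz_low c.1 c.2, add_sub_cancel_right]
      split_ifs with c'
      · rw [mul_div_cancel_left₀ _ (Wt_ne k t), sub_self, norm_zero, zero_mul]; positivity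
      · rw [zero_div, zero_sub, norm_neg]; linarith [h3 (by omega)]
    · rw [pow_succ] at c
      have h5 := div_Wt' (m := m) (L := L) (k := k) (t := t)
        (num_le' (i := i) (K := m + L) (hB s) (hG s) k t) fun e => by
          rcases le_or_gt k (m + L) with c' | c'
          · have := le_lam' k t
            have := Nat.pow_le_pow_right (show 0 < 4 by norm_num) (Nat.succ_le_succ c')
            omega
          · exact c'.le.trans (lam_big' (gv_zero (hw s).1) c' e).1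
      refine le_trans (mul_le_mul_of_nonneg_right (norm_sub_le _ _) (by positivity)) ?_
      rw [add_mul]
      linarith [h3 (by omega)]
  · obtain ⟨L', h3, h4⟩ := exists_two_pow (B + B) hδ (m + L)
    refine ⟨m' + L', by omega, fun q hq s => ?_⟩
    rw [Submodule.coe_sub, sr_iter]
    exact (zz_ret (hw s).1 (hB s) (hG s) hq).mono le_rfl h4

lemma dev_le (x : RD 𝕜 N) (l : ℕ) {ε : ℝ} (hε : 0 < ε) : ∀ᶠ k in atTop, ∀ t, lam k t ≤ l →
    ‖YA x.1 k t - if k < t then gv k (PV x.1) else 0‖ ≤ ε := by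
  obtain ⟨R, hR⟩ := tail_le x l hε
  filter_upwards [eventually_ge_atTop R] with k hk t ht
  rw [YA, add_sub_cancel_right, norm_mul, norm_Wt, mul_comm]
  refine le_trans ?_ (hR k t (by omega))
  gcongr
  norm_num

end Pool.Agent.P.MP_cd1425_an.En
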